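import Mathlib

set_option autoImplicit false

namespace Pool.Agent.Results.MP_e1ba52_co.NelderCyclic

/-- A triple (row, column, symbol). -/
abbrev Tri (n : ℕ) := Fin n × Fin n × Fin n

/-- A latin square of order `n`, as the function sending a row and a column to the symbol:
every symbol occurs exactly once in each row and in each column (injectivity suffices, the rows
and columns being maps of a finite set into itself). -/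
def IsLatin {n : ℕ} (f : Fin n → Fin n → Fin n) : Prop :=
  (∀ r, Function.Injective (f r)) ∧ ∀ c, Function.Injective fun r => f r c

/-- The set of triples of a square. -/
def triples {n : ℕ} (f : Fin n → Fin n → Fin n) : Set (Tri n) :=
  {t | f t.1 t.2.1 = t.2.2}

/-- Uniquely completable: exactly one latin square of order `n` contains `U`. -/
def UniquelyCompletable {n : ℕ} (U : Set (Tri n)) : Prop :=
  ∃! f : Fin n → Fin n → Fin n, IsLatin f ∧ U ⊆ triples f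

/-- `U` is a critical set of the latin square `f`: it is contained in `f`, it is uniquely
completable, and no proper subset of it is uniquely completable. -/
def IsCriticalSet {n : ℕ} (U : Set (Tri n)) (f : Fin n → Fin n → Fin n) : Prop :=
  IsLatin f ∧ U ⊆ triples f ∧ UniquelyCompletable U ∧ ∀ V, V ⊂ U → ¬ UniquelyCompletable V

/-- The cyclic latin square `C_n`, the Cayley table of `Z/n`. -/
def cyclic (n : ℕ) : Fin n → Fin n → Fin n :=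
  fun i j => ⟨(i.1 + j.1) % n, Nat.mod_lt _ i.pos⟩

/-! ### Checking unique completion by forced moves -/

/-- The kinds of forced moves: a cell with one possible symbol, or a symbol with one possible
place in a row or in a column. -/
inductive Kind
  | naked
  | row
  | col

/-- The check that the triple `t` is forced by the known triples `K`. -/
def Step {n : ℕ} (K : List (Tri n)) : Kind → Tri n → Prop
  | .naked, t => ∀ s : Fin n, s = t.2.2 ∨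
      ∃ u ∈ K, u.2.2 = s ∧ ((u.1 = t.1 ∧ u.2.1 ≠ t.2.1) ∨ (u.1 ≠ t.1 ∧ u.2.1 = t.2.1))
  | .row, t => ∀ c : Fin n, c = t.2.1 ∨
      ∃ u ∈ K, u.2.1 = c ∧ ((u.2.2 = t.2.2 ∧ u.1 ≠ t.1) ∨ (u.1 = t.1 ∧ u.2.2 ≠ t.2.2))
  | .col, t => ∀ r : Fin n, r = t.1 ∨
      ∃ u ∈ K, u.1 = r ∧ ((u.2.2 = t.2.2 ∧ u.2.1 ≠ t.2.1) ∨ (u.2.1 = t.2.1 ∧ u.2.2 ≠ t.2.2))

instance {n : ℕ} (K : List (Tri n)) (k : Kind) (t : Tri n) : Decidable (Step K k t) := by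
  cases k <;> unfold Step <;> infer_instance

lemma step_sound {n : ℕ} {K : List (Tri n)} {k : Kind} {t : Tri n} (h : Step K k t)
    {f : Fin n → Fin n → Fin n} (hf : IsLatin f) (hK : ∀ u ∈ K, f u.1 u.2.1 = u.2.2) :
    f t.1 t.2.1 = t.2.2 := by
  cases k with
  | naked =>
    rcases h (f t.1 t.2.1) with h | ⟨u, hu, hs, h⟩
    · exact h
    · exfalso
      have e := hK u hu
      rcases h with ⟨h1, h2⟩ | ⟨h1, h2⟩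
      · apply h2
        apply hf.1 t.1
        rw [← h1, e, hs, h1]
      · apply h1
        apply hf.2 t.2.1
        show f u.1 t.2.1 = f t.1 t.2.1
        rw [← h2, e, hs, h2]
  | row =>
    obtain ⟨c, hc⟩ := (Finite.injective_iff_surjective.mp (hf.1 t.1)) t.2.2
    rcases h c with h | ⟨u, hu, hs, h⟩
    · rw [← h]; exact hc
    · exfalso
      have e := hK u hu
      rcases h with ⟨h1, h2⟩ | ⟨h1, h2⟩
      · apply h2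
        apply hf.2 c
        show f u.1 c = f t.1 c
        rw [hc, ← hs, e, h1]
      · apply h2
        rw [← e, h1, hs, hc]
  | col =>
    obtain ⟨r, hr⟩ := (Finite.injective_iff_surjective.mp (hf.2 t.2.1)) t.2.2
    have hr' : f r t.2.1 = t.2.2 := hr
    rcases h r with h | ⟨u, hu, hs, h⟩
    · rw [← h]; exact hr'
    · exfalso
      have e := hK u hu
      rcases h with ⟨h1, h2⟩ | ⟨h1, h2⟩
      · apply h2
        apply hf.1 r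
        rw [hr', ← hs, e, h1]
      · apply h2
        rw [← e, h1, hs, hr']

/-- Run a list of forced moves and check that all cells of `g` are reached. -/
def run {n : ℕ} (g : Fin n → Fin n → Fin n) : List (Tri n) → List (Kind × Tri n) → Bool
  | K, [] => decide (∀ r c : Fin n, (r, c, g r c) ∈ K)
  | K, (k, t) :: rest => decide (Step K k t) && run g (t :: K) rest

lemma run_sound {n : ℕ} {g : Fin n → Fin n → Fin n} :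
    ∀ (S : List (Kind × Tri n)) (K : List (Tri n)), run g K S = true →
    ∀ f : Fin n → Fin n → Fin n, IsLatin f → (∀ u ∈ K, f u.1 u.2.1 = u.2.2) → f = g := by
  intro S
  induction S with
  | nil =>
    intro K h f _ hK
    simp only [run, decide_eq_true_eq] at h
    funext r c
    exact hK _ (h r c)
  | cons a rest ih =>
    intro K h f hf hK
    obtain ⟨k, t⟩ := a
    simp only [run, Bool.and_eq_true, decide_eq_true_eq] at h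
    apply ih (t :: K) h.2 f hf
    intro u hu
    rcases List.mem_cons.mp hu with rfl | hu
    · exact step_sound h.1 hf hK
    · exact hK u hu

/-- A square given by the list of its rows. -/
def ofRows {n : ℕ} [NeZero n] (M : List (List (Fin n))) : Fin n → Fin n → Fin n :=
  fun r c => (M.getD r.1 []).getD c.1 0

/-- Decidable form of being latin. -/
def LatinD {n : ℕ} (f : Fin n → Fin n → Fin n) : Prop :=
  (∀ r c c' : Fin n, f r c = f r c' → c = c') ∧ ∀ c r r' : Fin n, f r c = f r' c → r = r'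

instance {n : ℕ} (f : Fin n → Fin n → Fin n) : Decidable (LatinD f) := by
  unfold LatinD; infer_instance

lemma LatinD.isLatin {n : ℕ} {f : Fin n → Fin n → Fin n} (h : LatinD f) : IsLatin f :=
  ⟨fun r c c' e => h.1 r c c' e, fun c r r' e => h.2 c r r' e⟩

/-- The minimality certificate: for each element of `U` another latin square containing the
remaining elements but not that one. -/
def MinD {n : ℕ} [NeZero n] (U : List (Tri n)) (A : List (List (List (Fin n)))) : Prop :=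
  ∀ p ∈ U.zip A, LatinD (ofRows p.2) ∧ ofRows p.2 p.1.1 p.1.2.1 ≠ p.1.2.2 ∧
    ∀ v ∈ U, v = p.1 ∨ ofRows p.2 v.1 v.2.1 = v.2.2

instance {n : ℕ} [NeZero n] (U : List (Tri n)) (A : List (List (List (Fin n)))) :
    Decidable (MinD U A) := by
  unfold MinD; infer_instance

lemma critical_of_check {n : ℕ} [NeZero n] (U : List (Tri n)) (S : List (Kind × Tri n))
    (A : List (List (List (Fin n))))
    (h1 : LatinD (cyclic n)) (h2 : ∀ u ∈ U, cyclic n u.1 u.2.1 = u.2.2)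
    (h3 : run (cyclic n) U S = true) (h4 : MinD U A) (h5 : U.length = A.length) :
    IsCriticalSet {u | u ∈ U} (cyclic n) := by
  refine ⟨h1.isLatin, fun u hu => h2 u hu, ⟨cyclic n, ⟨h1.isLatin, fun u hu => h2 u hu⟩, ?_⟩, ?_⟩
  · rintro f ⟨hf, hU⟩
    exact run_sound S U h3 f hf (fun u hu => hU hu)
  · intro V hV hUC
    obtain ⟨hsub, hne⟩ := hV
    obtain ⟨u, huU, huV⟩ : ∃ u, u ∈ U ∧ u ∉ V := by
      by_contra hcon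
      push Not at hcon
      exact hne (fun u hu => hcon u hu)
    have hmem : u ∈ (U.zip A).map Prod.fst := by
      rw [List.map_fst_zip (by omega)]
      exact huU
    obtain ⟨p, hp, hpu⟩ := List.mem_map.mp hmem
    obtain ⟨hl, hnot, hall⟩ := h4 p hp
    obtain ⟨f, hf, huniq⟩ := hUC
    have e1 : cyclic n = f := huniq _ ⟨h1.isLatin, fun v hv => h2 v (hsub hv)⟩
    have e2 : ofRows p.2 = f := by
      apply huniq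
      refine ⟨hl.isLatin, fun v hv => ?_⟩
      rcases hall v (hsub hv) with h | h
      · exfalso
        apply huV
        rw [← hpu, ← h]
        exact hv
      · exact h
    apply hnot
    rw [e2, ← e1, hpu]
    exact h2 u huU

/-- Sixteen entries of `C_6`. -/
def U6 : List (Fin 6 × Fin 6 × Fin 6) :=
  [(0, 1, 1), (0, 2, 2), (0, 3, 3), (2, 1, 3), (2, 3, 5), (2, 4, 0), (3, 3, 0), (3, 4, 1), (4, 1, 5), (4, 2, 0), (4, 3, 1), (5, 0, 5), (5, 1, 0), (5, 2, 1), (5, 3, 2), (5, 4, 3)]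

/-- Forced moves completing `U6`. -/
def S6 : List (Kind × Fin 6 × Fin 6 × Fin 6) :=
  [(.naked, 1, 3, 4), (.naked, 1, 1, 2), (.naked, 1, 4, 5), (.naked, 0, 4, 4), (.naked, 0, 0, 0), (.naked, 0, 5, 5), (.naked, 1, 2, 3), (.naked, 1, 0, 1), (.naked, 1, 5, 0), (.naked, 2, 2, 4), (.naked, 2, 0, 2), (.naked, 2, 5, 1), (.naked, 3, 1, 4), (.naked, 3, 0, 3), (.naked, 3, 2, 5), (.naked, 3, 5, 2), (.naked, 4, 0, 4), (.naked, 4, 4, 2), (.naked, 4, 5, 3), (.naked, 5, 5, 4)]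

/-- Alternative squares for `U6`. -/
def A6 : List (List (List (Fin 6))) :=
  [[[1, 4, 2, 3, 5, 0], [0, 1, 5, 4, 2, 3], [2, 3, 4, 5, 0, 1], [4, 2, 3, 0, 1, 5], [3, 5, 0, 1, 4, 2], [5, 0, 1, 2, 3, 4]],
   [[4, 1, 5, 3, 2, 0], [0, 2, 3, 4, 5, 1], [1, 3, 4, 5, 0, 2], [3, 4, 2, 0, 1, 5], [2, 5, 0, 1, 4, 3], [5, 0, 1, 2, 3, 4]],
   [[3, 1, 2, 4, 5, 0], [0, 4, 5, 3, 2, 1], [1, 3, 4, 5, 0, 2], [4, 2, 3, 0, 1, 5], [2, 5, 0, 1, 4, 3], [5, 0, 1, 2, 3, 4]],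
   [[4, 1, 2, 3, 5, 0], [0, 3, 5, 4, 2, 1], [1, 4, 3, 5, 0, 2], [3, 2, 4, 0, 1, 5], [2, 5, 0, 1, 4, 3], [5, 0, 1, 2, 3, 4]],
   [[4, 1, 2, 3, 5, 0], [0, 4, 3, 5, 2, 1], [1, 3, 5, 4, 0, 2], [3, 2, 4, 0, 1, 5], [2, 5, 0, 1, 4, 3], [5, 0, 1, 2, 3, 4]],
   [[4, 1, 2, 3, 5, 0], [1, 2, 5, 4, 0, 3], [0, 3, 4, 5, 2, 1], [2, 4, 3, 0, 1, 5], [3, 5, 0, 1, 4, 2], [5, 0, 1, 2, 3, 4]],
   [[4, 1, 2, 3, 5, 0], [3, 4, 5, 0, 2, 1], [1, 3, 4, 5, 0, 2], [0, 2, 3, 4, 1, 5], [2, 5, 0, 1, 4, 3], [5, 0, 1, 2, 3, 4]],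
   [[4, 1, 2, 3, 5, 0], [0, 2, 5, 4, 1, 3], [2, 3, 4, 5, 0, 1], [1, 4, 3, 0, 2, 5], [3, 5, 0, 1, 4, 2], [5, 0, 1, 2, 3, 4]],
   [[4, 1, 2, 3, 5, 0], [0, 5, 3, 4, 2, 1], [1, 3, 4, 5, 0, 2], [2, 4, 5, 0, 1, 3], [3, 2, 0, 1, 4, 5], [5, 0, 1, 2, 3, 4]],
   [[0, 1, 2, 3, 4, 5], [1, 2, 0, 4, 5, 3], [2, 3, 4, 5, 0, 1], [3, 4, 5, 0, 1, 2], [4, 5, 3, 1, 2, 0], [5, 0, 1, 2, 3, 4]],
   [[4, 1, 2, 3, 5, 0], [0, 2, 5, 1, 4, 3], [1, 3, 4, 5, 0, 2], [2, 4, 3, 0, 1, 5], [3, 5, 0, 4, 2, 1], [5, 0, 1, 2, 3, 4]],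
   [[5, 1, 2, 3, 4, 0], [0, 2, 3, 4, 5, 1], [1, 3, 4, 5, 0, 2], [2, 4, 5, 0, 1, 3], [3, 5, 0, 1, 2, 4], [4, 0, 1, 2, 3, 5]],
   [[0, 1, 2, 3, 4, 5], [1, 0, 3, 4, 5, 2], [2, 3, 4, 5, 0, 1], [3, 2, 5, 0, 1, 4], [4, 5, 0, 1, 2, 3], [5, 4, 1, 2, 3, 0]],
   [[0, 1, 2, 3, 4, 5], [1, 2, 3, 4, 5, 0], [2, 3, 1, 5, 0, 4], [3, 4, 5, 0, 1, 2], [4, 5, 0, 1, 2, 3], [5, 0, 4, 2, 3, 1]],
   [[0, 1, 2, 3, 4, 5], [1, 4, 3, 2, 5, 0], [2, 3, 4, 5, 0, 1], [3, 2, 5, 0, 1, 4], [4, 5, 0, 1, 2, 3], [5, 0, 1, 4, 3, 2]],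
   [[4, 1, 2, 3, 5, 0], [0, 2, 5, 4, 3, 1], [1, 3, 4, 5, 0, 2], [2, 4, 3, 0, 1, 5], [3, 5, 0, 1, 2, 4], [5, 0, 1, 2, 4, 3]]]

/-- Twenty-three entries of `C_7`. -/
def U7 : List (Fin 7 × Fin 7 × Fin 7) :=
  [(1, 1, 2), (1, 2, 3), (1, 5, 6), (2, 0, 2), (2, 1, 3), (2, 2, 4), (2, 5, 0), (3, 0, 3), (3, 1, 4), (4, 0, 4), (4, 1, 5), (4, 2, 6), (4, 6, 3), (5, 0, 5), (5, 1, 6), (5, 2, 0), (5, 4, 2), (5, 5, 3), (5, 6, 4), (6, 0, 6), (6, 4, 3), (6, 5, 4), (6, 6, 5)]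

/-- Forced moves completing `U7`. -/
def S7 : List (Kind × Fin 7 × Fin 7 × Fin 7) :=
  [(.naked, 5, 3, 1), (.row, 0, 3, 3), (.row, 0, 4, 4), (.row, 0, 6, 6), (.naked, 2, 6, 1), (.naked, 1, 6, 0), (.naked, 1, 0, 1), (.naked, 0, 0, 0), (.naked, 0, 1, 1), (.naked, 1, 4, 5), (.naked, 1, 3, 4), (.naked, 2, 4, 6), (.naked, 2, 3, 5), (.naked, 3, 6, 2), (.naked, 6, 1, 0), (.naked, 6, 3, 2), (.naked, 4, 3, 0), (.naked, 3, 3, 6), (.naked, 4, 4, 1), (.naked, 3, 4, 0), (.naked, 4, 5, 2), (.naked, 0, 5, 5), (.naked, 0, 2, 2), (.naked, 3, 5, 1), (.naked, 3, 2, 5), (.naked, 6, 2, 1)]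

/-- Alternative squares for `U7`. -/
def A7 : List (List (List (Fin 7))) :=
  [[[0, 1, 2, 3, 4, 5, 6], [1, 0, 3, 4, 5, 6, 2], [2, 3, 4, 5, 6, 0, 1], [3, 4, 5, 6, 1, 2, 0], [4, 5, 6, 2, 0, 1, 3], [5, 6, 0, 1, 2, 3, 4], [6, 2, 1, 0, 3, 4, 5]],
   [[1, 0, 3, 4, 6, 5, 2], [0, 2, 5, 3, 4, 6, 1], [2, 3, 4, 5, 1, 0, 6], [3, 4, 1, 6, 5, 2, 0], [4, 5, 6, 2, 0, 1, 3], [5, 6, 0, 1, 2, 3, 4], [6, 1, 2, 0, 3, 4, 5]],
   [[1, 0, 5, 3, 4, 6, 2], [0, 2, 3, 4, 6, 5, 1], [2, 3, 4, 5, 1, 0, 6], [3, 4, 1, 6, 5, 2, 0], [4, 5, 6, 2, 0, 1, 3], [5, 6, 0, 1, 2, 3, 4], [6, 1, 2, 0, 3, 4, 5]],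
   [[2, 0, 1, 3, 4, 5, 6], [0, 2, 3, 4, 5, 6, 1], [1, 3, 4, 5, 6, 0, 2], [3, 4, 5, 6, 1, 2, 0], [4, 5, 6, 2, 0, 1, 3], [5, 6, 0, 1, 2, 3, 4], [6, 1, 2, 0, 3, 4, 5]],
   [[1, 3, 2, 4, 6, 5, 0], [0, 2, 3, 5, 4, 6, 1], [2, 1, 4, 3, 5, 0, 6], [3, 4, 5, 6, 0, 1, 2], [4, 5, 6, 0, 1, 2, 3], [5, 6, 0, 1, 2, 3, 4], [6, 0, 1, 2, 3, 4, 5]],
   [[1, 0, 4, 3, 6, 5, 2], [0, 2, 3, 5, 4, 6, 1], [2, 3, 5, 4, 1, 0, 6], [3, 4, 1, 6, 5, 2, 0], [4, 5, 6, 2, 0, 1, 3], [5, 6, 0, 1, 2, 3, 4], [6, 1, 2, 0, 3, 4, 5]],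
   [[1, 0, 5, 3, 4, 2, 6], [0, 2, 3, 4, 5, 6, 1], [2, 3, 4, 6, 1, 5, 0], [3, 4, 1, 5, 6, 0, 2], [4, 5, 6, 2, 0, 1, 3], [5, 6, 0, 1, 2, 3, 4], [6, 1, 2, 0, 3, 4, 5]],
   [[3, 1, 2, 4, 0, 5, 6], [1, 2, 3, 5, 4, 6, 0], [2, 3, 4, 6, 5, 0, 1], [0, 4, 5, 3, 6, 1, 2], [4, 5, 6, 0, 1, 2, 3], [5, 6, 0, 1, 2, 3, 4], [6, 0, 1, 2, 3, 4, 5]],
   [[1, 4, 5, 3, 6, 2, 0], [0, 2, 3, 4, 5, 6, 1], [2, 3, 4, 5, 1, 0, 6], [3, 0, 1, 6, 4, 5, 2], [4, 5, 6, 2, 0, 1, 3], [5, 6, 0, 1, 2, 3, 4], [6, 1, 2, 0, 3, 4, 5]],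
   [[4, 1, 2, 3, 6, 5, 0], [0, 2, 3, 4, 5, 6, 1], [2, 3, 4, 5, 1, 0, 6], [3, 4, 5, 6, 0, 1, 2], [1, 5, 6, 0, 4, 2, 3], [5, 6, 0, 1, 2, 3, 4], [6, 0, 1, 2, 3, 4, 5]],
   [[0, 5, 1, 3, 4, 2, 6], [1, 2, 3, 4, 5, 6, 0], [2, 3, 4, 5, 6, 0, 1], [3, 4, 5, 6, 0, 1, 2], [4, 0, 6, 2, 1, 5, 3], [5, 6, 0, 1, 2, 3, 4], [6, 1, 2, 0, 3, 4, 5]],
   [[1, 0, 6, 3, 4, 5, 2], [0, 2, 3, 4, 5, 6, 1], [2, 3, 4, 5, 1, 0, 6], [3, 4, 5, 2, 6, 1, 0], [4, 5, 1, 6, 0, 2, 3], [5, 6, 0, 1, 2, 3, 4], [6, 1, 2, 0, 3, 4, 5]],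
   [[1, 0, 5, 6, 4, 2, 3], [0, 2, 3, 4, 5, 6, 1], [2, 3, 4, 5, 1, 0, 6], [3, 4, 1, 2, 6, 5, 0], [4, 5, 6, 3, 0, 1, 2], [5, 6, 0, 1, 2, 3, 4], [6, 1, 2, 0, 3, 4, 5]],
   [[0, 1, 5, 3, 4, 2, 6], [5, 2, 3, 4, 1, 6, 0], [2, 3, 4, 6, 5, 0, 1], [3, 4, 1, 0, 6, 5, 2], [4, 5, 6, 2, 0, 1, 3], [1, 6, 0, 5, 2, 3, 4], [6, 0, 2, 1, 3, 4, 5]],
   [[1, 6, 5, 3, 4, 2, 0], [0, 2, 3, 4, 5, 6, 1], [2, 3, 4, 5, 1, 0, 6], [3, 4, 1, 0, 6, 5, 2], [4, 5, 6, 2, 0, 1, 3], [5, 1, 0, 6, 2, 3, 4], [6, 0, 2, 1, 3, 4, 5]],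
   [[0, 1, 5, 3, 4, 2, 6], [1, 2, 3, 4, 5, 6, 0], [2, 3, 4, 5, 6, 0, 1], [3, 4, 0, 6, 1, 5, 2], [4, 5, 6, 2, 0, 1, 3], [5, 6, 1, 0, 2, 3, 4], [6, 0, 2, 1, 3, 4, 5]],
   [[0, 1, 5, 3, 4, 2, 6], [1, 2, 3, 4, 5, 6, 0], [2, 3, 4, 5, 6, 0, 1], [3, 4, 1, 6, 0, 5, 2], [4, 5, 6, 0, 2, 1, 3], [5, 6, 0, 2, 1, 3, 4], [6, 0, 2, 1, 3, 4, 5]],
   [[1, 0, 5, 6, 4, 3, 2], [0, 2, 3, 4, 5, 6, 1], [2, 3, 4, 5, 1, 0, 6], [3, 4, 1, 2, 6, 5, 0], [4, 5, 6, 1, 0, 2, 3], [5, 6, 0, 3, 2, 1, 4], [6, 1, 2, 0, 3, 4, 5]],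
   [[0, 1, 2, 3, 6, 5, 4], [1, 2, 3, 5, 4, 6, 0], [2, 3, 4, 1, 5, 0, 6], [3, 4, 5, 6, 0, 1, 2], [4, 5, 6, 0, 1, 2, 3], [5, 6, 0, 4, 2, 3, 1], [6, 0, 1, 2, 3, 4, 5]],
   [[6, 1, 5, 3, 4, 2, 0], [0, 2, 3, 4, 5, 6, 1], [2, 3, 4, 5, 1, 0, 6], [3, 4, 1, 0, 6, 5, 2], [4, 5, 6, 2, 0, 1, 3], [5, 6, 0, 1, 2, 3, 4], [1, 0, 2, 6, 3, 4, 5]],
   [[0, 1, 5, 4, 3, 2, 6], [1, 2, 3, 5, 4, 6, 0], [2, 3, 4, 6, 5, 0, 1], [3, 4, 1, 0, 6, 5, 2], [4, 5, 6, 2, 0, 1, 3], [5, 6, 0, 1, 2, 3, 4], [6, 0, 2, 3, 1, 4, 5]],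
   [[0, 1, 5, 3, 6, 4, 2], [1, 2, 3, 5, 4, 6, 0], [2, 3, 4, 6, 5, 0, 1], [3, 4, 1, 2, 0, 5, 6], [4, 5, 6, 0, 1, 2, 3], [5, 6, 0, 1, 2, 3, 4], [6, 0, 2, 4, 3, 1, 5]],
   [[0, 1, 2, 3, 4, 5, 6], [1, 2, 3, 4, 0, 6, 5], [2, 3, 4, 6, 5, 0, 1], [3, 4, 5, 2, 6, 1, 0], [4, 5, 6, 0, 1, 2, 3], [5, 6, 0, 1, 2, 3, 4], [6, 0, 1, 5, 3, 4, 2]]]

lemma crit6 : IsCriticalSet {u | u ∈ U6} (cyclic 6) :=
  critical_of_check U6 S6 A6 (by decide +kernel) (by decide +kernel) (by decide +kernel)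
    (by decide +kernel) (by decide +kernel)

lemma crit7 : IsCriticalSet {u | u ∈ U7} (cyclic 7) :=
  critical_of_check U7 S7 A7 (by decide +kernel) (by decide +kernel) (by decide +kernel)
    (by decide +kernel) (by decide +kernel)

lemma card6 : ({u | u ∈ U6} : Set (Tri 6)).ncard = 16 := by
  have : ({u | u ∈ U6} : Set (Tri 6)) = (U6.toFinset : Set (Tri 6)) := by
    ext u; simp
  rw [this, Set.ncard_coe_finset]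
  decide +kernel

lemma card7 : ({u | u ∈ U7} : Set (Tri 7)).ncard = 23 := by
  have : ({u | u ∈ U7} : Set (Tri 7)) = (U7.toFinset : Set (Tri 7)) := by
    ext u; simp
  rw [this, Set.ncard_coe_finset]
  decide +kernel

/-- **Nelder's bound fails for cyclic latin squares.** The cyclic latin square `C_6` has a
critical set of size `16 > 15 = 6·5/2`, and `C_7` has a critical set of size `23 > 21 = 7·6/2`.
Hence it is false that every critical set of `C_n` has at most `n (n - 1) / 2` triples. -/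
theorem result :
    (∃ U : Set (Tri 6), IsCriticalSet U (cyclic 6) ∧ U.ncard = 16) ∧
    (∃ U : Set (Tri 7), IsCriticalSet U (cyclic 7) ∧ U.ncard = 23) ∧
    ¬ (∀ n : ℕ, 1 ≤ n → ∀ U : Set (Tri n), IsCriticalSet U (cyclic n) →
        U.ncard ≤ n * (n - 1) / 2) := by
  refine ⟨⟨_, crit6, card6⟩, ⟨_, crit7, card7⟩, ?_⟩
  intro h
  have := h 6 (by norm_num) _ crit6
  rw [card6] at this
  norm_num at this

end Pool.Agent.Results.MP_e1ba52_co.NelderCyclic
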